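import Pool.Agent.W323.PT.Stm

/-! Project PT (helper323), part Der: transitivity of the order of crossings on a chord. -/

set_option autoImplicit false

namespace Pool.Agent.W748.PT

open Pool.Agent.W323.PT

/-- second form of the hexagon determinant -/
theorem D_form2 (a1 a2 a3 a4 a5 a6 : Pt) :
    D a1 a2 a3 a4 a5 a6 = o a1 a4 a5 * o a2 a3 a6 - o a1 a2 a4 * o a3 a5 a6 := by
  unfold D o
  ring

/-- third form of the hexagon determinant -/
theorem D_form3 (a1 a2 a3 a4 a5 a6 : Pt) :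
    D a1 a2 a3 a4 a5 a6 = o a1 a3 a6 * o a2 a4 a5 - o a1 a2 a5 * o a3 a4 a6 := by
  unfold D o
  ring

theorem comb {P Q U V R W : ℝ} (hU : 0 < U) (hV : 0 < V) (hQ : 0 < Q) (hW : 0 < W)
    (h1 : 0 < Q * U - P * V) (h2 : 0 < R * V - U * W) : 0 < Q * R - P * W := by
  have h3 : 0 < (Q * U - P * V) * W := mul_pos h1 hW
  have h4 : 0 < (R * V - U * W) * Q := mul_pos h2 hQ
  have h5 : 0 < V * (Q * R - P * W) := by nlinarith
  exact (mul_pos_iff_of_pos_left hV).1 h5

theorem der : S_Der := by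
  intro T hc hh t1 t2 t3 t4 t5 t6 h12 h23 h34 h45 h56 h51 h62
  obtain ⟨-, hT⟩ := hc
  have hA := hh t1 t2 (t2 + 1) t4 t5 (t5 + 1) (by omega) (by omega) (by omega) (by omega)
    (by omega) (by omega)
  have hB := hh t2 (t2 + 1) t3 t5 (t5 + 1) t6 (by omega) (by omega) (by omega) (by omega)
    (by omega) (by omega)
  rw [D_form2] at hA ⊢
  rw [D_form3] at hB
  exact comb (U := o (T t2) (T (t2 + 1)) (T (t5 + 1))) (V := o (T (t2 + 1)) (T t5) (T (t5 + 1)))
    (hT _ _ _ (by omega) (by omega) (by omega)) (hT _ _ _ (by omega) (by omega) (by omega))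
    (hT _ _ _ (by omega) (by omega) (by omega)) (hT _ _ _ (by omega) (by omega) (by omega)) hA hB

theorem der' : S_Der' := by
  intro T hc hh t1 t2 t3 t4 t5 t6 h12 h23 h34 h45 h56 h62 h51
  obtain ⟨-, hT⟩ := hc
  have hA := hh t1 (t2 - 1) t2 t4 (t5 - 1) t5 (by omega) (by omega) (by omega) (by omega)
    (by omega) (by omega)
  have hB := hh (t2 - 1) t2 t3 (t5 - 1) t5 t6 (by omega) (by omega) (by omega) (by omega)
    (by omega) (by omega)
  rw [D_form2] at hB ⊢
  unfold D at hA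
  have hB' : 0 < o (T t2) (T t3) (T t6) * o (T (t2 - 1)) (T (t5 - 1)) (T t5) -
      o (T (t2 - 1)) (T t2) (T (t5 - 1)) * o (T t3) (T t5) (T t6) := by
    linarith
  exact comb (U := o (T (t2 - 1)) (T t2) (T (t5 - 1))) (V := o (T (t2 - 1)) (T (t5 - 1)) (T t5))
    (hT _ _ _ (by omega) (by omega) (by omega)) (hT _ _ _ (by omega) (by omega) (by omega))
    (hT _ _ _ (by omega) (by omega) (by omega)) (hT _ _ _ (by omega) (by omega) (by omega)) hA hB'

end Pool.Agent.W748.PT
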